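import Mathlib
import Pool.Agent.U273.AI.H2Main

/-!
# The Mumford-Tate conjecture for `H^2` and the endomorphisms over `ℚ`, at every prime number

Let `X` be a smooth projective variety over a field `k` which is finitely generated over `ℚ`, with
`H^2(X, ℚ)(1) = N ⊕ T`, `N` the algebraic classes (`k^κ`) and `T` the transcendental part, a
polarised rational Hodge structure of level two and rank `n`.  Suppose that the Mumford-Tate group is
as big as possible: it is the special orthogonal group of `T` (`HasFullMumfordTateGroup`).  This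
is so if the endomorphisms of `T` are the rational scalars and the Hodge numbers `(p, q, p)` satisfy
`p = 1`, or `2 p^2 (p^2 + 1) < (q - 2 p) (q + p)` (`IsBig`; a theorem in the starting files).

`Γ` is the Galois group of `k` (or the fundamental group of a model) and `s : G_ℚ → Γ` the homomorphism
given by a rational point of the generic fibre of a model of `X`; so `s` describes the fibre `X_s`, a
smooth projective variety over `ℚ` with the same cohomology (if `k = ℚ`, then `s` is the identity).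
`Γ` acts on `N ⊗ ℚ_ℓ` through a finite group, it preserves the intersection form on `T`, and at the
prime numbers `v` of good reduction the characteristic polynomial `P_v` of the geometric Frobenius on `T`
has rational coefficients which do not depend on `ℓ`; its complex roots have absolute value one, and
`v` times a root is an algebraic integer (Deligne).

**Theorem.**  Suppose that the Mumford-Tate conjecture for `H^2(X_s)` holds at ONE prime number `ℓ₀`
(with `n` odd, `n ≥ 5`, and `ℓ₀` prime to `n - 1`, or with `n` even, `n ≥ 8`, `ℓ₀` prime to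
`(n - 2) (n - 4)` and the exponent of `ℓ₀` in the discriminant of `T` even).  Then for EVERY prime
number `ℓ` the following are equivalent:

* the Mumford-Tate conjecture for `H^2(X_s)` at `ℓ`;
* the endomorphisms of `T ⊗ ℚ_ℓ` which commute with the Galois group `G_ℚ` are the scalars.

So at every prime number `ℓ` the conjecture is reduced to Tate's conjecture for the endomorphisms of `T`,
over `ℚ` itself and not over its finite extensions.  The semisimplicity of the representation is not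
assumed, it is proved.

Idea of the proof.  The representation on `T ⊗ ℚ_ℓ` is semisimple for every `ℓ`: this is the theorem on
semisimplicity at every prime number (library `Pool.Agent.R932.SQ`, starting file
`EveryPrimeFromOnePrime` of MP_b4801b_ag), applied to `T(-1)`; the Lie algebra of the image of the
twist at `ℓ₀` contains `so(T)`, because `so(T)` is perfect.  If the commutant is scalar, then the
representation is absolutely irreducible (Burnside).  There are places `v` prime to `ℓ` and `ℓ₀` such that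
the different Frobenius eigenvalues have different powers.  The commutant of an open normal subgroup
`Δ` is diagonal in an eigenbasis of a power of the Frobenius element, and the Galois group permutes
the blocks transitively; if there are several blocks, some element `g` moves all of them (Jordan),
and the trace vanishes on the coset `g Δ`.  Then the trace vanishes on the same coset at `ℓ₀`
(Chebotarev), which is impossible, since `so(T)` generates the algebra of all matrices.  So the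
commutants of all open subgroups are the scalars at `ℓ`, and the library `Pool.Agent.R932.PO` shows that
the Lie algebra at `ℓ` is `so(T)`.
-/

set_option autoImplicit false

namespace Pool.Agent.Results.MP_6369ef_ag.EndomorphismsOverQ

open MvPolynomial Matrix Filter Topology NumberField IsDedekindDomain
open Pool.Agent.W544.PG (HS)

noncomputable section

section groups

variable {ι : Type} [Fintype ι] [DecidableEq ι]

/-- The value of a rational polynomial in the entries at a matrix. -/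
def value {R : Type} [CommRing R] [Algebra ℚ R] (g : Matrix ι ι R)
    (f : MvPolynomial (ι × ι) ℚ) : R :=
  aeval (fun q : ι × ι => g q.1 q.2) f

/-- `G` is the set of complex points of an algebraic subgroup over `ℚ` of the general linear
group. -/
def IsQGroup (G : Set (Matrix ι ι ℂ)) : Prop :=
  (∃ P : Set (MvPolynomial (ι × ι) ℚ), ∀ g, g ∈ G ↔ g.det ≠ 0 ∧ ∀ f ∈ P, value g f = 0) ∧
  1 ∈ G ∧ (∀ a ∈ G, ∀ b ∈ G, a * b ∈ G) ∧ ∀ a ∈ G, a⁻¹ ∈ G

/-- The complex points of the Mumford-Tate group: the smallest algebraic subgroup over `ℚ` which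
contains `h z` for all `z`. -/
def mumfordTate (h : ℂ → Matrix ι ι ℂ) : Set (Matrix ι ι ℂ) :=
  {g | ∀ G, IsQGroup G → (∀ z, z ≠ 0 → h z ∈ G) → g ∈ G}

/-- The points of the Mumford-Tate group over a field `R`. -/
def InMumfordTate {R : Type} [Field R] [Algebra ℚ R] (h : ℂ → Matrix ι ι ℂ)
    (g : Matrix ι ι R) : Prop :=
  ∀ f : MvPolynomial (ι × ι) ℚ, (∀ m ∈ mumfordTate h, value m f = 0) → value g f = 0

variable {ℓ : ℕ} [Fact ℓ.Prime] {Γ : Type} [Group Γ]

/-- The points of the identity component of the Zariski closure of `ρ(Γ)` over the algebraic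
closure of `ℚ_ℓ`: a polynomial that vanishes on the image of a subgroup of finite index vanishes
at `g`. -/
def InMonodromy (ρ : Γ →* Matrix ι ι ℚ_[ℓ]) (g : Matrix ι ι (AlgebraicClosure ℚ_[ℓ])) : Prop :=
  ∀ f : MvPolynomial (ι × ι) (AlgebraicClosure ℚ_[ℓ]),
    (∃ Δ : Subgroup Γ, Δ.FiniteIndex ∧ ∀ s ∈ Δ,
      aeval (fun q : ι × ι => algebraMap ℚ_[ℓ] (AlgebraicClosure ℚ_[ℓ]) (ρ s q.1 q.2)) f = 0) →
    aeval (fun q : ι × ι => g q.1 q.2) f = 0

/-- The Mumford-Tate conjecture: the two groups agree over `ℚ_ℓ`. -/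
def MumfordTateConjecture (h : ℂ → Matrix ι ι ℂ) (ρ : Γ →* Matrix ι ι ℚ_[ℓ]) : Prop :=
  ∀ g : Matrix ι ι (AlgebraicClosure ℚ_[ℓ]), g.det ≠ 0 → (InMonodromy ρ g ↔ InMumfordTate h g)

end groups

variable {n : ℕ}

/-- The action of `ℂ^×` on `N ⊕ T`: trivial on `N`, and on `T` it is multiplication by `conj z / z`,
`1`, `z / conj z` on the parts where `T.x` is `1`, `0`, `-1`. -/
def hodge (κ : Type) [Fintype κ] [DecidableEq κ] (T : HS n) (z : ℂ) :
    Matrix (κ ⊕ Fin n) (κ ⊕ Fin n) ℂ :=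
  fromBlocks 1 0 0 (1 + ((starRingEnd ℂ z / z - 1) / 2) • (T.x * T.x + T.x) +
    ((z / starRingEnd ℂ z - 1) / 2) • (T.x * T.x - T.x))

/-- The Mumford-Tate group acts trivially on `N`, and on `T` it is the group of all isometries of
determinant one. -/
def HasFullMumfordTateGroup (κ : Type) [Fintype κ] [DecidableEq κ] (T : HS n) : Prop :=
  mumfordTate (hodge κ T) = {m | ∃ t : Matrix (Fin n) (Fin n) ℂ,
    tᵀ * T.Q.map (algebraMap ℚ ℂ) * t = T.Q.map (algebraMap ℚ ℂ) ∧ t.det = 1 ∧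
      m = fromBlocks 1 0 0 t}

/-- The endomorphisms of `T` are the rational scalars, and the Hodge numbers `(p, q, p)` satisfy a
numerical condition. -/
def IsBig (T : HS n) : Prop :=
  (∀ A : Matrix (Fin n) (Fin n) ℚ,
    A.map (fun a : ℚ => (a : ℂ)) * T.x = T.x * A.map (fun a : ℚ => (a : ℂ)) →
    ∃ c : ℚ, A = c • (1 : Matrix (Fin n) (Fin n) ℚ)) ∧
  ∃ p q : ℕ, (T.x * T.x).trace = 2 * (p : ℂ) ∧ n = 2 * p + q ∧
    ((p = 1 ∧ 0 < q) ∨ (0 < p ∧ 2 * p ^ 2 * (p ^ 2 + 1) < (q - 2 * p) * (q + p)))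

/-- An `ℓ`-adic integral matrix as a matrix over `ℚ_ℓ`. -/
def rat {ℓ : ℕ} [Fact ℓ.Prime] (g : Matrix (Fin n) (Fin n) ℤ_[ℓ]) :
    Matrix (Fin n) (Fin n) ℚ_[ℓ] :=
  g.map (algebraMap ℤ_[ℓ] ℚ_[ℓ])

/-- The representation `α ⊕ β` of the Galois group on `N ⊕ T`. -/
def galois {κ : Type} [Fintype κ] [DecidableEq κ] {ℓ : ℕ} [Fact ℓ.Prime] {Γ : Type} [Group Γ]
    (α : Γ →* Matrix κ κ ℚ_[ℓ]) (β : Γ →* Matrix (Fin n) (Fin n) ℤ_[ℓ]) :
    Γ →* Matrix (κ ⊕ Fin n) (κ ⊕ Fin n) ℚ_[ℓ] where
  toFun σ := fromBlocks (α σ) 0 0 (rat (β σ))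
  map_one' := (Pool.Agent.Y95.MT.tot α β).map_one
  map_mul' := (Pool.Agent.Y95.MT.tot α β).map_mul

/-- the absolute Galois group of `K`, with its profinite (Krull) topology -/
abbrev AbsoluteGaloisGroup (K : Type) [Field K] : Type := Gal(AlgebraicClosure K/K)

/-- `σ` is an (arithmetic) Frobenius element at the prime `v` of the number field `K`: for some prime
`Q` of the algebraic closure above `v` it acts on the residue field as `x ↦ x ^ N(v)` -/
def IsFrobenius {K : Type} [Field K] [NumberField K] (v : HeightOneSpectrum (𝓞 K))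
    (σ : AbsoluteGaloisGroup K) : Prop :=
  ∃ Q : Ideal (𝓞 (AlgebraicClosure K)), Q.IsMaximal ∧
    Q.comap (algebraMap (𝓞 K) (𝓞 (AlgebraicClosure K))) = v.asIdeal ∧
    ∀ x : 𝓞 (AlgebraicClosure K), σ • x - x ^ Ideal.absNorm v.asIdeal ∈ Q

/-- `α` and `β` are the representations on the algebraic classes and on `T`: both are continuous, `α` has
finite image, `β` preserves the form of `T`, and for all `v ∉ S` which are prime to `ℓ` the
characteristic polynomial of (the image under `s` of) the geometric Frobenius elements `σ⁻¹` (`σ`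
arithmetic) at `v` on `T` is `P v` -/
def IsSystem {K : Type} [Field K] [NumberField K] {Γ : Type} [Group Γ] [TopologicalSpace Γ]
    (s : AbsoluteGaloisGroup K →* Γ) {κ : Type} [Fintype κ] [DecidableEq κ] (T : HS n)
    (S : Set (HeightOneSpectrum (𝓞 K))) (P : HeightOneSpectrum (𝓞 K) → Polynomial ℚ) (ℓ : ℕ)
    [Fact ℓ.Prime] (α : Γ →* Matrix κ κ ℚ_[ℓ]) (β : Γ →* Matrix (Fin n) (Fin n) ℤ_[ℓ]) : Prop :=
  Continuous α ∧ (Set.range α).Finite ∧ Continuous β ∧
    (∀ σ, (rat (β σ))ᵀ * T.Q.map (algebraMap ℚ ℚ_[ℓ]) * rat (β σ) =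
      T.Q.map (algebraMap ℚ ℚ_[ℓ])) ∧
    ∀ v ∉ S, (ℓ : 𝓞 K) ∉ v.asIdeal → ∀ σ : AbsoluteGaloisGroup K, IsFrobenius v σ →
      (rat (β (s σ⁻¹))).charpoly = (P v).map (algebraMap ℚ ℚ_[ℓ])

/-- the condition on the prime number `ℓ₀` -/
def IsSuitable (T : HS n) (ℓ₀ : ℕ) : Prop :=
  (Odd n ∧ 5 ≤ n ∧ ¬ ℓ₀ ∣ n - 1) ∨
    (Even n ∧ 8 ≤ n ∧ ¬ ℓ₀ ∣ (n - 2) * (n - 4) ∧ Even (padicValRat ℓ₀ T.Q.det))

/-- the endomorphisms of `T ⊗ ℚ_ℓ` which commute with the group `G` are the scalars -/
def HasScalarEndomorphisms {ℓ : ℕ} [Fact ℓ.Prime] {G : Type} [Group G]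
    (β : G →* Matrix (Fin n) (Fin n) ℤ_[ℓ]) : Prop :=
  ∀ A : Matrix (Fin n) (Fin n) ℚ_[ℓ], (∀ g, A * rat (β g) = rat (β g) * A) →
    ∃ c : ℚ_[ℓ], A = c • (1 : Matrix (Fin n) (Fin n) ℚ_[ℓ])

/-- `χ ℓ` is (the inverse of) the `ℓ`-adic cyclotomic character: it is continuous, and the geometric
Frobenius elements at `v` are mapped to `N(v)` -/
def IsCyclotomic {K : Type} [Field K] [NumberField K] {Γ : Type} [Group Γ] [TopologicalSpace Γ]
    (s : AbsoluteGaloisGroup K →* Γ) (S : Set (HeightOneSpectrum (𝓞 K)))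
    (χ : ∀ (ℓ : ℕ) [Fact ℓ.Prime], Γ →* ℚ_[ℓ]) : Prop :=
  ∀ (ℓ : ℕ) [Fact ℓ.Prime], Continuous (χ ℓ) ∧ ∀ v ∉ S, (ℓ : 𝓞 K) ∉ v.asIdeal →
    ∀ σ : AbsoluteGaloisGroup K, IsFrobenius v σ →
      χ ℓ (s σ⁻¹) = (Ideal.absNorm v.asIdeal : ℚ_[ℓ])

/-- the Frobenius eigenvalues on `T` have absolute value one, and `N(v)` times them is integral -/
def IsPure {K : Type} [Field K] [NumberField K] (S : Set (HeightOneSpectrum (𝓞 K)))
    (P : HeightOneSpectrum (𝓞 K) → Polynomial ℚ) : Prop :=
  ∀ v ∉ S, ∀ z : ℂ, Polynomial.aeval z (P v) = 0 →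
    ‖z‖ = 1 ∧ IsIntegral ℤ ((Ideal.absNorm v.asIdeal : ℂ) * z)

/-- **The Mumford-Tate conjecture for `H^2 = N ⊕ T` at every prime number, from one prime number and the
endomorphisms over `ℚ`.** -/
theorem result (T : HS n)
    -- the Galois group
    (Γ : Type) [Group Γ] [TopologicalSpace Γ] [IsTopologicalGroup Γ] [CompactSpace Γ]
    (s : AbsoluteGaloisGroup ℚ →* Γ) (hs : Continuous s)
    (S : Set (HeightOneSpectrum (𝓞 ℚ))) (hS : S.Finite)
    (P : HeightOneSpectrum (𝓞 ℚ) → Polynomial ℚ)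
    (κ : Type) [Fintype κ] [DecidableEq κ]
    (α : ∀ (ℓ : ℕ) [Fact ℓ.Prime], Γ →* Matrix κ κ ℚ_[ℓ])
    (β : ∀ (ℓ : ℕ) [Fact ℓ.Prime], Γ →* Matrix (Fin n) (Fin n) ℤ_[ℓ])
    (hsys : ∀ (ℓ : ℕ) [Fact ℓ.Prime], IsSystem s T S P ℓ (α ℓ) (β ℓ))
    (χ : ∀ (ℓ : ℕ) [Fact ℓ.Prime], Γ →* ℚ_[ℓ]) (hχ : IsCyclotomic s S χ) (hP : IsPure S P)
    -- the Mumford-Tate group
    (hMT : HasFullMumfordTateGroup κ T ∨ IsBig T)
    -- the Mumford-Tate conjecture at one prime number
    (ℓ₀ : ℕ) [Fact ℓ₀.Prime] (hℓ₀ : IsSuitable T ℓ₀)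
    (hone : MumfordTateConjecture (hodge κ T) (galois ((α ℓ₀).comp s) ((β ℓ₀).comp s)))
    -- every prime number
    (ℓ : ℕ) [Fact ℓ.Prime] :
    MumfordTateConjecture (hodge κ T) (galois ((α ℓ).comp s) ((β ℓ).comp s)) ↔
      HasScalarEndomorphisms ((β ℓ).comp s) := by
  have hFull : Pool.Agent.U273.AI.FullMT T κ := by
    rcases hMT with h | ⟨hEnd, p, q, htr, hn, hpq⟩
    · exact Pool.Agent.U273.AI.fullMT_of_eq h
    · by_cases hn1 : p = 1 ∧ q = 0
      · exfalso
        rcases hpq with h | h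
        · omega
        · rw [hn1.1, hn1.2] at h
          omega
      refine Pool.Agent.U273.AI.fullMT_of_big (p := fun _ => p) (q := fun _ => q) ?_
      refine ⟨fun a b hab => absurd rfl hab, fun a b hab => absurd rfl hab, fun A hA => ?_,
        fun i => ?_, fun i => ?_, fun i => ?_⟩
      · obtain ⟨c, hc⟩ := hEnd A hA
        exact ⟨fun _ => c, by rw [hc, Matrix.smul_one_eq_diagonal]⟩
      · rw [← htr, Matrix.trace]
        refine Finset.sum_congr ?_ fun _ _ => rfl
        ext a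
        simp [Subsingleton.elim (0 : Fin 1) i]
      · have h1 : (Finset.univ.filter fun a : Fin n => Pool.Agent.R932.one1 n a = i) =
            Finset.univ := by
          ext a
          simp [Subsingleton.elim (0 : Fin 1) i]
        rw [h1, Finset.card_univ, Fintype.card_fin, hn]
      · rcases hpq with ⟨h1, h2⟩ | h1
        · refine Or.inl ⟨h1, h2, ?_⟩
          rintro h3
          rw [h1, h3] at hn
          rcases hℓ₀ with ⟨-, h4, -⟩ | ⟨-, h4, -⟩ <;> omega
        · exact Or.inr h1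
  have hrep : ∀ (ℓ : ℕ) [Fact ℓ.Prime], Pool.Agent.R932.RepT s T S P ℓ (β ℓ) := fun ℓ _ =>
    ⟨(hsys ℓ).2.2.1, (hsys ℓ).2.2.2.1, (hsys ℓ).2.2.2.2⟩
  obtain ⟨kd, hfit, hal⟩ : ∃ kd : Pool.Agent.R932.PO.Kind, Pool.Agent.R932.PO.Fits kd T.Q ∧
      Pool.Agent.R932.PO.Allows kd n ℓ₀ (T.Q.map (algebraMap ℚ ℚ_[ℓ₀])) := by
    rcases hℓ₀ with ⟨h1, h2, h3⟩ | ⟨h1, h2, h3, h4⟩
    · exact ⟨.odd, ⟨T.symm, h1, h2⟩, h3⟩
    · refine ⟨.even, ⟨T.symm, h1, h2⟩, h3, ?_⟩
      have h5 : (T.Q.map (algebraMap ℚ ℚ_[ℓ₀])).det = ((T.Q.det : ℚ) : ℚ_[ℓ₀]) := by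
        have h6 := (algebraMap ℚ ℚ_[ℓ₀]).map_det T.Q
        rw [RingHom.mapMatrix_apply] at h6
        rw [← h6, eq_ratCast]
      rw [h5, Padic.valuation_ratCast]
      exact h4
  obtain ⟨-, -, h3⟩ := Pool.Agent.U273.AI.h2_main hfit hFull hS hs α
    (fun ℓ _ => ⟨(hsys ℓ).1, (hsys ℓ).2.1⟩) β hrep ℓ₀ hal hone
  exact (h3 (Module.finrank_self ℚ) χ 1 one_pos (fun ℓ _ => (hχ ℓ).1) (fun ℓ _ => (hχ ℓ).2)
    (fun v hv z hz => ⟨(hP v hv z hz).1, by rw [pow_one]; exact (hP v hv z hz).2⟩) ℓ).2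

end

end Pool.Agent.Results.MP_6369ef_ag.EndomorphismsOverQ
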