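import Pool.Agent.U483.KP.MtMod

/-!
# The Mumford-Tate conjecture for `H^2` and the Grothendieck ring of varieties

`𝓜` is the semisimple tensor category of the motives over `k` for absolute Hodge cycles (Deligne), for a finitely
generated field `k ⊆ ℂ`, and `H.h i w X = gr^W_w h^i_c(X)` for all separated schemes `X` of finite type over `k`
(Deligne, Jannsen); `R` is the `ℓ`-adic realization with the action of the Galois group, `T` the Tate motives
with the cyclotomic character, and `Q` the Betti realization with the Hodge classes and the comparison isomorphism.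
The structures `CompactCoh`, `IsMultiplicative`, `Realization`, `Twists` and `Betti` list the known properties which are
used. `MumfordTate T Q M` says that for all motives in the tensor category generated by `M` and the
Tate motives the `ℓ`-adic realization is semisimple and the Hodge classes and the Tate classes generate the
same subspace; for `M = h^2(X)` this is the Mumford-Tate conjecture for `H^2(X)` at `ℓ` with coefficients `ℚ_ℓ` (both groups
are then reductive and have the same invariants).

* For smooth projective `X` and `X'` with the same class in the Grothendieck group `K_0(Var_k)` of varieties, and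
  more generally if the difference of the classes is in the subgroup generated by the classes of the schemes `Y` (open,
  singular) for which the pieces `gr^W_2 h^n_c(Y)` are Tate motives (for instance products with `𝔸^2`, and cellular
  schemes), the Mumford-Tate conjecture holds for `H^2(X)` if and only if it holds for `H^2(X')`.
* Let `𝒜` be a class of motives which is closed under direct factors, direct sums and tensor products, which contains
  the Tate motives and for whose members the representations are semisimple and Hodge classes and Tate classes generate the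
  same subspace (for instance the motives generated by abelian varieties for which the Mumford-Tate
  conjecture is known, and K3 surfaces). If the class of `X` is in the subgroup generated by the classes of
  the schemes `Y` with all `gr^W_2 h^n_c(Y)` in `𝒜`, then the Mumford-Tate conjecture holds for `H^2(X)`.
  This applies to all schemes which can be built (`Built`) from schemes with pieces in `𝒜` and to the smooth
  projective `X` whose classes they generate.
-/

set_option autoImplicit false

open CategoryTheory AlgebraicGeometry Pool.Agent.Y116.UV Pool.Agent.U282.ZL Pool.Agent.U483.KM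
  Pool.Agent.U483.GU Pool.Agent.U483.KP

namespace Pool.Agent.Results.MP_6369ef_ag.GrothendieckRing

universe w x

theorem result (k : Type) [Field k] (𝓜 : Type w) [Category.{x} 𝓜] [Abelian 𝓜] [Linear ℚ 𝓜]
    [MonoidalCategory 𝓜] (H : CompactCoh.{w, x} k 𝓜) (L : 𝓜) (hH : IsMultiplicative H L)
    (G K : Type) [Group G] [Field K] (R : Realization.{w, x} 𝓜 G K) (T : Twists R) (Q : Betti R) :
    -- the conjecture for `H^2` in terms of the class in `K_0(Var_k)`, modulo Tate motives
    (∀ X X' : Var k, SmoothProjective X.1 → SmoothProjective X'.1 →
      cls X - cls X' ∈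
        AddSubgroup.closure {c | ∃ Y : Var k, (∀ n : ℤ, TateType T (H.h n 2 Y.1)) ∧ c = cls Y} →
      (MumfordTate T Q (H.h 2 2 X.1) ↔ MumfordTate T Q (H.h 2 2 X'.1))) ∧
    -- varieties whose classes are generated by schemes with known pieces of weight two
    (∀ 𝒜 : 𝓜 → Prop, IsTensorThick 𝒜 → (∀ m, 𝒜 (T.tw m)) →
      (∀ A, 𝒜 A → SSRep (R.ρ A) ∧ Agree T Q A) →
      (∀ X : Var k, SmoothProjective X.1 →
        cls X ∈ AddSubgroup.closure {c | ∃ Y : Var k, (∀ n : ℤ, 𝒜 (H.h n 2 Y.1)) ∧ c = cls Y} →
        MumfordTate T Q (H.h 2 2 X.1)) ∧
      ∀ (B : Sch k → Prop), 𝒜 L → (∀ Y, FT True Y → B Y → H.In 𝒜 Y) → ∀ D : ℕ,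
        (∀ Y : Sch k, FT True Y → topologicalKrullDim Y.left ≤ D → H.In 𝒜 Y) →
        ∀ X : Var k, SmoothProjective X.1 →
          cls X ∈ AddSubgroup.closure {c | ∃ Y : Var k, Built k B D Y.1 ∧ c = cls Y} →
          MumfordTate T Q (H.h 2 2 X.1)) := by
  refine ⟨fun X X' hX hX' h => ?_, fun 𝒜 h𝒜 ht hA => ⟨fun X hX h => ?_, fun B hL hB D hD X hX h => ?_⟩⟩
  · have h1 := generated_mod H T hX hX' 2 h
    exact ⟨fun h2 A hA => h2 A ((h1 A).2 hA), fun h2 A hA => h2 A ((h1 A).1 hA)⟩
  · have h1 := piece_of_mem H h𝒜.toIsThick hX 2 h
    exact fun A hA' => hA A (hA' 𝒜 h𝒜 h1 ht)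
  · have h1 := in_of_built hH h𝒜 hL hB hD hX h 2 2
    exact fun A hA' => hA A (hA' 𝒜 h𝒜 h1 ht)

end Pool.Agent.Results.MP_6369ef_ag.GrothendieckRing
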