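import Pool.Agent.U273.AI.H2Main
import Pool.Agent.U175.LP.R17

/-!
# The Mumford-Tate conjecture for `H^2` from one finite Galois group

Let `X` be a smooth projective variety over a field `k` which is finitely generated over `ℚ`, with
`H^2(X, ℚ)(1) = N ⊕ T`, `N` the algebraic classes (`k^κ`) and `T` the transcendental part, a
polarised rational Hodge structure of level two and rank `n`. Suppose that the Mumford-Tate group is
as big as possible, the special orthogonal group of `T` (`HasFullMumfordTateGroup`). This is so if the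
endomorphisms of `T` are the rational scalars and the Hodge numbers `(p, q, p)` satisfy `p = 1`, or
`2 p^2 (p^2 + 1) < (q - 2 p) (q + p)` (`IsBig`; a theorem in the starting files), and for the general
member of most families. So `X` may be a surface with `p_g > 1` (for `p_g = 1` the conjecture is known),
for example a surface of degree at least five in the projective space.

`Γ` is the Galois group of `k` (or the fundamental group of a model), `K` a number field and
`s : G_K → Γ` the homomorphism given by a closed point of the generic fibre of a model of `X`; so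
`s` describes the fibre `X_s`, a smooth projective variety over `K` with the same cohomology (if `k` is
a number field, then `K = k` and `s` is the identity). `Γ` acts on `N ⊗ ℚ_ℓ` through a finite group, it
preserves the intersection form on `T`, and at the places `v` of `K` of good reduction the
characteristic polynomial `P_v` of the geometric Frobenius on `T` has rational coefficients which do
not depend on `ℓ` (Deligne). `ℤ_ℓ ^ n` is a stable lattice in `T ⊗ ℚ_ℓ`.

Let `p ≥ 5` be ONE prime number (prime to `n - 1` if `n` is odd, `n ≥ 5`, and prime to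
`(n - 2) (n - 4)` if `n` is even, `n ≥ 8`). Multiply the intersection form by a power of `p` such that
it is integral and not zero modulo `p` on the lattice (`IsFormOn`). The hypothesis
(`ResidualHypothesis`) is on the finite group `G` of orthogonal matrices over `ℤ / p`, the image of the
Galois group of `K` modulo `p`:

* `G` is primitive: a subspace `W` such that for all `g` in `G` the subspace `g W` is equal to `W` or
  orthogonal to `W` is zero or the whole space (so `G` is irreducible, and permutes no orthogonal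
  decomposition);
* `G` contains a reflection. By the Picard-Lefschetz formula this is true for every `p` if `X_s`
  acquires one ordinary double point (on a regular model) at some place of `K` not above `p` and `2`, and
  the dimension of `X` is two;
* `G` contains an element `u ≠ 1` with `(u - 1) ^ ((p - 1) / 2) = 0`. If `p > 2 n` this means only that
  the order of `G` is divisible by `p`. It excludes the finite groups of reflections which exist in
  characteristic zero (as the symmetric groups).

**Theorem.** Then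

(1) the Mumford-Tate conjecture for `H^2(X_s)` holds at the prime number `p`;

(2) it holds for `H^2(X_s)`, and so for `H^2(X)`, for all prime numbers `ℓ` outside a set of natural
density zero;

(3) for EVERY prime number `ℓ` the conjecture for `H^2(X_s)` at `ℓ` holds if and only if the
representation of the Galois group `G_K` of `K` on `T ⊗ ℚ_ℓ` is absolutely irreducible, and it implies the
conjecture for `H^2(X)` at `ℓ`.

There is no hypothesis on any `p`-adic or `ℓ`-adic image, on Frobenius polynomials, or on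
semisimplicity; `p` may be small compared with `n`; the whole group of rational points of the
orthogonal group over `ℤ / p` (or any classification of finite groups) is not needed.

Proof. (a) Let `u` in `G` be the image of the Galois element `g`, `(u - 1) ^ k = 0`, `2 k < p`. Then
`g ^ p = 1 + p Y` on the lattice, `Y` congruent to `log u`, and the logarithm of `g ^ p` shows that
`log u` is the reduction of an integral element of the Lie algebra `𝔤` of the `p`-adic image
(`nlog_mem0`). So the Lie algebra `L` of the reductions of the elements of `𝔤` is not zero; it is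
stable under `G`. (b) If `v` is the vector of a reflection `r` in `G` and `X` is in `L`, then
`X - r X r` is a multiple of the exterior product of `v` and `X v`, so this operator is in `L`
(`refHyp`). (c) Let `P_v` be the set of the vectors `x` such that the exterior product of `v` and `x` is
in `L`. If `v` and `v'` are not orthogonal and `v'` is not in `P_v`, then the orthogonal complement
`M_v` of `v` in `P_v` is totally isotropic and is equal to `M_v'`; this property is inherited by
all vectors of reflections, as they are connected (primitivity), and so `M_v` is orthogonal to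
everything, hence zero, so `L = 0`, a contradiction. So all `P_v` agree, and are the whole space:
`L` is the full orthogonal Lie algebra (`RefHyp.full`, a theorem over all fields of characteristic
not two). (d) The form is unimodular because of primitivity, and successive approximation shows that
all integral skew matrices are in `𝔤` (`so_tan`). (e) So the Mumford-Tate conjecture holds at `p`, and
the theorem of `FromOnePrime` in this folder (library `Pool.Agent.U273.AI`, helper273), which assumes
the conjecture at one prime number, gives (2) and (3).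
-/

set_option autoImplicit false

namespace Pool.Agent.Results.MP_6369ef_ag.ResidualReflections

open MvPolynomial Matrix Filter Topology NumberField IsDedekindDomain
open Pool.Agent.W544.PG (HS)

noncomputable section

section groups

variable {ι : Type} [Fintype ι] [DecidableEq ι]

/-- The value of a rational polynomial in the entries at a matrix. -/
def value {R : Type} [CommRing R] [Algebra ℚ R] (g : Matrix ι ι R)
    (f : MvPolynomial (ι × ι) ℚ) : R :=
  aeval (fun q : ι × ι => g q.1 q.2) f

/-- `G` is the set of complex points of an algebraic subgroup over `ℚ` of the general linear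
group. -/
def IsQGroup (G : Set (Matrix ι ι ℂ)) : Prop :=
  (∃ P : Set (MvPolynomial (ι × ι) ℚ), ∀ g, g ∈ G ↔ g.det ≠ 0 ∧ ∀ f ∈ P, value g f = 0) ∧
  1 ∈ G ∧ (∀ a ∈ G, ∀ b ∈ G, a * b ∈ G) ∧ ∀ a ∈ G, a⁻¹ ∈ G

/-- The complex points of the Mumford-Tate group: the smallest algebraic subgroup over `ℚ` which
contains `h z` for all `z`. -/
def mumfordTate (h : ℂ → Matrix ι ι ℂ) : Set (Matrix ι ι ℂ) :=
  {g | ∀ G, IsQGroup G → (∀ z, z ≠ 0 → h z ∈ G) → g ∈ G}

/-- The points of the Mumford-Tate group over a field `R`. -/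
def InMumfordTate {R : Type} [Field R] [Algebra ℚ R] (h : ℂ → Matrix ι ι ℂ)
    (g : Matrix ι ι R) : Prop :=
  ∀ f : MvPolynomial (ι × ι) ℚ, (∀ m ∈ mumfordTate h, value m f = 0) → value g f = 0

variable {ℓ : ℕ} [Fact ℓ.Prime] {Γ : Type} [Group Γ]

/-- The points of the identity component of the Zariski closure of `ρ(Γ)` over the algebraic
closure of `ℚ_ℓ`: a polynomial that vanishes on the image of a subgroup of finite index vanishes
at `g`. -/
def InMonodromy (ρ : Γ →* Matrix ι ι ℚ_[ℓ]) (g : Matrix ι ι (AlgebraicClosure ℚ_[ℓ])) : Prop :=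
  ∀ f : MvPolynomial (ι × ι) (AlgebraicClosure ℚ_[ℓ]),
    (∃ Δ : Subgroup Γ, Δ.FiniteIndex ∧ ∀ s ∈ Δ,
      aeval (fun q : ι × ι => algebraMap ℚ_[ℓ] (AlgebraicClosure ℚ_[ℓ]) (ρ s q.1 q.2)) f = 0) →
    aeval (fun q : ι × ι => g q.1 q.2) f = 0

/-- The Mumford-Tate conjecture: the two groups agree over `ℚ_ℓ`. -/
def MumfordTateConjecture (h : ℂ → Matrix ι ι ℂ) (ρ : Γ →* Matrix ι ι ℚ_[ℓ]) : Prop :=
  ∀ g : Matrix ι ι (AlgebraicClosure ℚ_[ℓ]), g.det ≠ 0 → (InMonodromy ρ g ↔ InMumfordTate h g)

end groups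

variable {n : ℕ}

/-- The action of `ℂ^×` on `N ⊕ T`: trivial on `N`, and on `T` it is multiplication by `conj z / z`,
`1`, `z / conj z` on the parts where `T.x` is `1`, `0`, `-1`. -/
def hodge (κ : Type) [Fintype κ] [DecidableEq κ] (T : HS n) (z : ℂ) :
    Matrix (κ ⊕ Fin n) (κ ⊕ Fin n) ℂ :=
  fromBlocks 1 0 0 (1 + ((starRingEnd ℂ z / z - 1) / 2) • (T.x * T.x + T.x) +
    ((z / starRingEnd ℂ z - 1) / 2) • (T.x * T.x - T.x))

/-- The Mumford-Tate group acts trivially on `N`, and on `T` it is the group of all isometries of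
determinant one. -/
def HasFullMumfordTateGroup (κ : Type) [Fintype κ] [DecidableEq κ] (T : HS n) : Prop :=
  mumfordTate (hodge κ T) = {m | ∃ t : Matrix (Fin n) (Fin n) ℂ,
    tᵀ * T.Q.map (algebraMap ℚ ℂ) * t = T.Q.map (algebraMap ℚ ℂ) ∧ t.det = 1 ∧
      m = fromBlocks 1 0 0 t}

/-- The endomorphisms of `T` are the rational scalars, and the Hodge numbers `(p, q, p)` satisfy a
numerical condition. -/
def IsBig (T : HS n) : Prop :=
  (∀ A : Matrix (Fin n) (Fin n) ℚ,
    A.map (fun a : ℚ => (a : ℂ)) * T.x = T.x * A.map (fun a : ℚ => (a : ℂ)) →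
    ∃ c : ℚ, A = c • (1 : Matrix (Fin n) (Fin n) ℚ)) ∧
  ∃ p q : ℕ, (T.x * T.x).trace = 2 * (p : ℂ) ∧ n = 2 * p + q ∧
    ((p = 1 ∧ 0 < q) ∨ (0 < p ∧ 2 * p ^ 2 * (p ^ 2 + 1) < (q - 2 * p) * (q + p)))

/-- An `ℓ`-adic integral matrix as a matrix over `ℚ_ℓ`. -/
def rat {ℓ : ℕ} [Fact ℓ.Prime] (g : Matrix (Fin n) (Fin n) ℤ_[ℓ]) :
    Matrix (Fin n) (Fin n) ℚ_[ℓ] :=
  g.map (algebraMap ℤ_[ℓ] ℚ_[ℓ])

/-- The representation `α ⊕ β` of the Galois group on `N ⊕ T`. -/
def galois {κ : Type} [Fintype κ] [DecidableEq κ] {ℓ : ℕ} [Fact ℓ.Prime] {Γ : Type} [Group Γ]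
    (α : Γ →* Matrix κ κ ℚ_[ℓ]) (β : Γ →* Matrix (Fin n) (Fin n) ℤ_[ℓ]) :
    Γ →* Matrix (κ ⊕ Fin n) (κ ⊕ Fin n) ℚ_[ℓ] where
  toFun σ := fromBlocks (α σ) 0 0 (rat (β σ))
  map_one' := (Pool.Agent.Y95.MT.tot α β).map_one
  map_mul' := (Pool.Agent.Y95.MT.tot α β).map_mul

/-- the absolute Galois group of `K`, with its profinite (Krull) topology -/
abbrev AbsoluteGaloisGroup (K : Type) [Field K] : Type := Gal(AlgebraicClosure K/K)

/-- `σ` is an (arithmetic) Frobenius element at the prime `v` of the number field `K`: for some prime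
`Q` of the algebraic closure above `v` it acts on the residue field as `x ↦ x ^ N(v)` -/
def IsFrobenius {K : Type} [Field K] [NumberField K] (v : HeightOneSpectrum (𝓞 K))
    (σ : AbsoluteGaloisGroup K) : Prop :=
  ∃ Q : Ideal (𝓞 (AlgebraicClosure K)), Q.IsMaximal ∧
    Q.comap (algebraMap (𝓞 K) (𝓞 (AlgebraicClosure K))) = v.asIdeal ∧
    ∀ x : 𝓞 (AlgebraicClosure K), σ • x - x ^ Ideal.absNorm v.asIdeal ∈ Q

/-- `α` and `β` are the representations on the algebraic classes and on `T`: both are continuous, `α` has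
finite image, `β` preserves the form of `T`, and for all `v ∉ S` which are prime to `ℓ` the
characteristic polynomial of (the image under `s` of) the geometric Frobenius elements `σ⁻¹` (`σ`
arithmetic) at `v` on `T` is `P v` -/
def IsSystem {K : Type} [Field K] [NumberField K] {Γ : Type} [Group Γ] [TopologicalSpace Γ]
    (s : AbsoluteGaloisGroup K →* Γ) {κ : Type} [Fintype κ] [DecidableEq κ] (T : HS n)
    (S : Set (HeightOneSpectrum (𝓞 K))) (P : HeightOneSpectrum (𝓞 K) → Polynomial ℚ) (ℓ : ℕ)
    [Fact ℓ.Prime] (α : Γ →* Matrix κ κ ℚ_[ℓ]) (β : Γ →* Matrix (Fin n) (Fin n) ℤ_[ℓ]) : Prop :=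
  Continuous α ∧ (Set.range α).Finite ∧ Continuous β ∧
    (∀ σ, (rat (β σ))ᵀ * T.Q.map (algebraMap ℚ ℚ_[ℓ]) * rat (β σ) =
      T.Q.map (algebraMap ℚ ℚ_[ℓ])) ∧
    ∀ v ∉ S, (ℓ : 𝓞 K) ∉ v.asIdeal → ∀ σ : AbsoluteGaloisGroup K, IsFrobenius v σ →
      (rat (β (s σ⁻¹))).charpoly = (P v).map (algebraMap ℚ ℚ_[ℓ])

/-- the set `A` of prime numbers has natural density zero -/
def HasDensityZero (A : Set ℕ) : Prop :=
  Tendsto (fun n : ℕ => (Nat.card {ℓ : ℕ // ℓ ≤ n ∧ ℓ ∈ A} : ℝ) / (Nat.primeCounting n : ℝ))
    atTop (𝓝 0)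

/-- the condition on the prime number `p` and the rank `n` -/
def IsSuitable (n p : ℕ) : Prop :=
  (Odd n ∧ 5 ≤ n ∧ ¬ p ∣ n - 1) ∨ (Even n ∧ 8 ≤ n ∧ ¬ p ∣ (n - 2) * (n - 4))

section residual

variable {p : ℕ} [Fact p.Prime]

/-- The reduction modulo `p` of an integral `p`-adic matrix. -/
def reduction (g : Matrix (Fin n) (Fin n) ℤ_[p]) : Matrix (Fin n) (Fin n) (ZMod p) :=
  g.map PadicInt.toZMod

/-- The product of two vectors modulo `p` for the form with the matrix `J`. -/
def product (J : Matrix (Fin n) (Fin n) ℤ_[p]) (x y : Fin n → ZMod p) : ZMod p :=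
  x ⬝ᵥ reduction J *ᵥ y

/-- `J` is the matrix of a nonzero multiple of the form of `T`, integral and not zero modulo `p`. -/
def IsFormOn (T : HS n) (J : Matrix (Fin n) (Fin n) ℤ_[p]) : Prop :=
  (∃ c : ℚ_[p], c ≠ 0 ∧ J.map (algebraMap ℤ_[p] ℚ_[p]) = c • T.Q.map (algebraMap ℚ ℚ_[p])) ∧
    reduction J ≠ 0

/-- The residual representation is primitive: the only subspaces `W` such that for all `g` the
subspace `g W` is equal to `W` or orthogonal to `W` are zero and the whole space. -/
def IsPrimitive {G : Type} [Group G] (J : Matrix (Fin n) (Fin n) ℤ_[p])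
    (β : G →* Matrix (Fin n) (Fin n) ℤ_[p]) : Prop :=
  ∀ W : Submodule (ZMod p) (Fin n → ZMod p),
    (∀ g, W.map (reduction (β g)).mulVecLin = W ∨
      ∀ x ∈ W, ∀ y ∈ W, product J (reduction (β g) *ᵥ x) y = 0) → W = ⊥ ∨ W = ⊤

/-- The residual representation is primitive, some element acts as a reflection
`x ↦ x - (2 ⟨v, x⟩ / ⟨v, v⟩) v`, and some element acts as `u ≠ 1` with `(u - 1) ^ ((p - 1) / 2) = 0`. -/
structure ResidualHypothesis {G : Type} [Group G] (J : Matrix (Fin n) (Fin n) ℤ_[p])
    (β : G →* Matrix (Fin n) (Fin n) ℤ_[p]) : Prop where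
  primitive : IsPrimitive J β
  reflection : ∃ (g : G) (v : Fin n → ZMod p), product J v v ≠ 0 ∧
    ∀ x, reduction (β g) *ᵥ x = x - (2 * product J v x / product J v v) • v
  unipotent : ∃ g : G, reduction (β g) ≠ 1 ∧ (reduction (β g) - 1) ^ ((p - 1) / 2) = 0

end residual

/-- the representation `β` of the group `G` on `T ⊗ ℚ_ℓ` is absolutely irreducible: there is no proper
nonzero stable subspace over the algebraic closure -/
def IsAbsolutelyIrreducible {ℓ : ℕ} [Fact ℓ.Prime] {G : Type} [Group G]
    (β : G →* Matrix (Fin n) (Fin n) ℤ_[ℓ]) : Prop :=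
  ∀ W : Submodule (AlgebraicClosure ℚ_[ℓ]) (Fin n → AlgebraicClosure ℚ_[ℓ]),
    (∀ g, ∀ w ∈ W, (rat (β g)).map (algebraMap ℚ_[ℓ] (AlgebraicClosure ℚ_[ℓ])) *ᵥ w ∈ W) →
      W = ⊥ ∨ W = ⊤

/-- **The Mumford-Tate conjecture for `H^2 = N ⊕ T` from one finite Galois group.** -/
theorem result (T : HS n)
    -- the Galois group
    (K : Type) [Field K] [NumberField K] (Γ : Type) [Group Γ] [TopologicalSpace Γ]
    [IsTopologicalGroup Γ] [CompactSpace Γ] (s : AbsoluteGaloisGroup K →* Γ) (hs : Continuous s)
    (S : Set (HeightOneSpectrum (𝓞 K))) (hS : S.Finite)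
    (P : HeightOneSpectrum (𝓞 K) → Polynomial ℚ)
    (κ : Type) [Fintype κ] [DecidableEq κ]
    (α : ∀ (ℓ : ℕ) [Fact ℓ.Prime], Γ →* Matrix κ κ ℚ_[ℓ])
    (β : ∀ (ℓ : ℕ) [Fact ℓ.Prime], Γ →* Matrix (Fin n) (Fin n) ℤ_[ℓ])
    (hsys : ∀ (ℓ : ℕ) [Fact ℓ.Prime], IsSystem s T S P ℓ (α ℓ) (β ℓ))
    -- the Mumford-Tate group
    (hMT : HasFullMumfordTateGroup κ T ∨ IsBig T)
    -- the residual representation at one prime number
    (p : ℕ) [Fact p.Prime] (hp5 : 5 ≤ p) (hp : IsSuitable n p)
    (J : Matrix (Fin n) (Fin n) ℤ_[p]) (hJ : IsFormOn T J)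
    (hres : ResidualHypothesis J ((β p).comp s)) :
    -- the prime number `p`
    MumfordTateConjecture (hodge κ T) (galois ((α p).comp s) ((β p).comp s)) ∧
    -- 100 percent of the prime numbers
    (HasDensityZero {ℓ | ∃ _ : Fact ℓ.Prime,
        ¬ MumfordTateConjecture (hodge κ T) (galois ((α ℓ).comp s) ((β ℓ).comp s))} ∧
      HasDensityZero {ℓ | ∃ _ : Fact ℓ.Prime,
        ¬ MumfordTateConjecture (hodge κ T) (galois (α ℓ) (β ℓ))}) ∧
    -- every prime number
    (∀ (ℓ : ℕ) [Fact ℓ.Prime],
      (MumfordTateConjecture (hodge κ T) (galois ((α ℓ).comp s) ((β ℓ).comp s)) ↔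
        IsAbsolutelyIrreducible ((β ℓ).comp s)) ∧
      (MumfordTateConjecture (hodge κ T) (galois ((α ℓ).comp s) ((β ℓ).comp s)) →
        MumfordTateConjecture (hodge κ T) (galois (α ℓ) (β ℓ)))) := by
  obtain ⟨⟨c, hc, hJc⟩, hJ0⟩ := hJ
  have hFull : Pool.Agent.U273.AI.FullMT T κ := by
    rcases hMT with h | ⟨hEnd, p', q, htr, hn, hpq⟩
    · exact Pool.Agent.U273.AI.fullMT_of_eq h
    · refine Pool.Agent.U273.AI.fullMT_of_big (p := fun _ => p') (q := fun _ => q) ?_
      refine ⟨fun a b hab => absurd rfl hab, fun a b hab => absurd rfl hab, fun A hA => ?_,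
        fun i => ?_, fun i => ?_, fun i => ?_⟩
      · obtain ⟨c, hc⟩ := hEnd A hA
        exact ⟨fun _ => c, by rw [hc, Matrix.smul_one_eq_diagonal]⟩
      · rw [← htr, Matrix.trace]
        refine Finset.sum_congr ?_ fun _ _ => rfl
        ext a
        simp [Subsingleton.elim (0 : Fin 1) i]
      · have h1 : (Finset.univ.filter fun a : Fin n => Pool.Agent.R932.one1 n a = i) =
            Finset.univ := by
          ext a
          simp [Subsingleton.elim (0 : Fin 1) i]
        rw [h1, Finset.card_univ, Fintype.card_fin, hn]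
      · rcases hpq with ⟨h1, h2⟩ | h1
        · refine Or.inl ⟨h1, h2, ?_⟩
          rintro h3
          rw [h1, h3] at hn
          rcases hp with ⟨-, h4, -⟩ | ⟨-, h4, -⟩ <;> omega
        · exact Or.inr h1
  have hrep : ∀ (ℓ : ℕ) [Fact ℓ.Prime], Pool.Agent.R932.RepT s T S P ℓ (β ℓ) := fun ℓ _ =>
    ⟨(hsys ℓ).2.2.1, (hsys ℓ).2.2.2.1, (hsys ℓ).2.2.2.2⟩
  -- the form on the lattice
  have hJs : Jᵀ = J := by
    apply Pool.Agent.U175.LP.map_inj
    rw [transpose_map, hJc, transpose_smul, ← transpose_map, T.symm]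
  have hiso : ∀ g, ((β p).comp s g)ᵀ * J * (β p).comp s g = J := by
    intro g
    apply Pool.Agent.U175.LP.map_inj
    rw [Matrix.map_mul, Matrix.map_mul, transpose_map, hJc, mul_smul_comm, smul_mul_assoc]
    congr 1
    exact (hsys p).2.2.2.1 (s g)
  have hJd : IsUnit J.det := Pool.Agent.U175.LP.unimodular_of_primitive
    (fun g => ⟨1, by rw [Units.val_one, one_smul, hiso]⟩) hJ0 hres.primitive
  have hfull : ∀ X, Pool.Agent.Y142.ZS.SpLie (T.Q.map (algebraMap ℚ ℚ_[p])) X →
      Pool.Agent.Y142.ZO.IsTangent p (Pool.Agent.R932.qrep ((β p).comp s)) X := by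
    intro X hX
    refine Pool.Agent.U175.LP.so_of_residual (R := (β p).comp s) (J := J) (by omega)
      (fun g => rfl) hJs hiso hJ0 hres.primitive hres.reflection hres.unipotent ?_
    rw [hJc, mul_smul_comm, smul_mul_assoc, ← smul_add]
    have h1 : Xᵀ * T.Q.map (algebraMap ℚ ℚ_[p]) + T.Q.map (algebraMap ℚ ℚ_[p]) * X = 0 := hX
    rw [h1, smul_zero]
  obtain ⟨kd, hfit, hal⟩ : ∃ kd : Pool.Agent.R932.PO.Kind, Pool.Agent.R932.PO.Fits kd T.Q ∧
      Pool.Agent.R932.PO.Allows kd n p (T.Q.map (algebraMap ℚ ℚ_[p])) := by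
    rcases hp with ⟨h1, h2, h3⟩ | ⟨h1, h2, h3⟩
    · exact ⟨.odd, ⟨T.symm, h1, h2⟩, h3⟩
    · refine ⟨.even, ⟨T.symm, h1, h2⟩, h3, ?_⟩
      have h5 : (algebraMap ℤ_[p] ℚ_[p]) J.det =
          c ^ n * (T.Q.map (algebraMap ℚ ℚ_[p])).det := by
        have h6 := congrArg Matrix.det hJc
        rw [det_smul, Fintype.card_fin] at h6
        rw [← h6, RingHom.map_det]
        rfl
      have h7 : ‖(algebraMap ℤ_[p] ℚ_[p]) J.det‖ = 1 := by
        have h8 := PadicInt.isUnit_iff.1 hJd
        rw [← h8]
        rfl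
      have hQ0 : (T.Q.map (algebraMap ℚ ℚ_[p])).det ≠ 0 := by
        intro h0
        rw [h5, h0, mul_zero, norm_zero] at h7
        exact zero_ne_one h7
      rw [h5, norm_mul, norm_pow, Padic.norm_eq_zpow_neg_valuation hc,
        Padic.norm_eq_zpow_neg_valuation hQ0, ← zpow_natCast, ← _root_.zpow_mul, ← zpow_add₀ (by
          exact_mod_cast (Fact.out : p.Prime).ne_zero)] at h7
      have h9 : -c.valuation * (n : ℤ) + -(T.Q.map (algebraMap ℚ ℚ_[p])).det.valuation = 0 := by
        by_contra hne
        have hp1 : (1 : ℝ) < p := by exact_mod_cast (Fact.out : p.Prime).one_lt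
        exact hne ((zpow_eq_one_iff_right₀ (by positivity) hp1.ne').1 h7)
      obtain ⟨m, hm⟩ := h1
      refine ⟨-(c.valuation * m), ?_⟩
      have hm' : (n : ℤ) = m + m := by exact_mod_cast hm
      rw [hm'] at h9
      linear_combination -h9
  have hone : Pool.Agent.Y95.MT.MTC (Pool.Agent.Y95.MT.hM (fun _ => (1 : Matrix κ κ ℂ)) T)
      (Pool.Agent.Y95.MT.tot ((α p).comp s) ((β p).comp s)) :=
    Pool.Agent.U273.AI.mtc_of_full' (G := AbsoluteGaloisGroup K) (β := (β p).comp s) hFull
      ((hsys p).1.comp hs) ((hsys p).2.1.subset (by rintro _ ⟨g, rfl⟩; exact ⟨s g, rfl⟩))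
      ((hsys p).2.2.1.comp hs) (fun σ => (hsys p).2.2.2.1 (s σ)) hfull
  obtain ⟨h1, h2, -⟩ := Pool.Agent.U273.AI.h2_main hfit hFull hS hs α
    (fun ℓ _ => ⟨(hsys ℓ).1, (hsys ℓ).2.1⟩) β hrep p hal hone
  refine ⟨hone, ⟨h1, ?_⟩, fun ℓ _ => h2 ℓ⟩
  refine Pool.Agent.Y142.ZI.DensityZero.mono h1 ?_
  rintro ℓ ⟨hp, hno⟩
  exact ⟨hp, fun h => hno ((h2 ℓ).2 h)⟩

end

end Pool.Agent.Results.MP_6369ef_ag.ResidualReflections
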